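import Pool.Agent.helper48.AN.SpecF

/-!
# Project an (MP_263b92_ag), module FK: Kähler differentials of a function field
-/

namespace AN

open scoped Classical
open Pool.Agent.helper53.AU

noncomputable section

/-- The linear map `Ω → F` given by a derivation. -/
theorem FK_inj {k F : Type} [Field k] [IsAlgClosed k] [Field F] [Algebra k F] (hF : IsFF k F)
    (D : Derivation k F F) (hD : D ≠ 0) (ω : KaehlerDifferential k F)
    (h : D.liftKaehlerDifferential ω = 0) : ω = 0 := by
  rw [← Module.forall_dual_apply_eq_zero_iff F]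
  intro φ
  obtain ⟨c, hc⟩ := aQK2 k F hF D (φ.compDer (KaehlerDifferential.D k F)) hD
  have h1 : φ = c • D.liftKaehlerDifferential := by
    apply Derivation.liftKaehlerDifferential_unique
    rw [hc]
    ext f
    simp
  rw [h1, LinearMap.smul_apply, h, smul_zero]

theorem FK_surj {k F : Type} [Field k] [Field F] [Algebra k F]
    (D : Derivation k F F) (hD : D ≠ 0) (y : F) :
    ∃ ω : KaehlerDifferential k F, D.liftKaehlerDifferential ω = y := by
  obtain ⟨x, hx⟩ : ∃ x, D x ≠ 0 := by
    by_contra hc
    push Not at hc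
    exact hD (Derivation.ext fun x => hc x)
  refine ⟨(y / D x) • KaehlerDifferential.D k F x, ?_⟩
  rw [LinearMap.map_smul, Derivation.liftKaehlerDifferential_comp_D, smul_eq_mul,
    div_mul_cancel₀ _ hx]

theorem FK : FK_stmt := by
  intro k F _ _ _ _ hF D hD
  obtain ⟨e, he⟩ : ∃ e : KaehlerDifferential k F ≃ₗ[F] F,
      ∀ ω, e ω = D.liftKaehlerDifferential ω := by
    refine ⟨LinearEquiv.ofBijective D.liftKaehlerDifferential ⟨?_, ?_⟩, fun ω => rfl⟩
    · rw [← LinearMap.ker_eq_bot, LinearMap.ker_eq_bot']
      exact fun ω h => FK_inj hF D hD ω h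
    · exact fun y => FK_surj D hD y
  have heD : ∀ f : F, e (KaehlerDifferential.D k F f) = D f := by
    intro f
    rw [he, Derivation.liftKaehlerDifferential_comp_D]
  refine ⟨e, heD, fun P ω => ?_⟩
  constructor
  · rintro ⟨t, f, ht, hf, rfl⟩
    have h5 := (aQK5 k F hF D hD P t ht).2.1
    rw [map_smul, heD, smul_eq_mul]
    have h6 := hf.mul (P.ge_ord (D t))
    rw [h5, zero_add] at h6
    exact h6
  · intro h
    have h5 := (aQK5 k F hF D hD P P.unif P.unif_spec).1
    refine ⟨P.unif, e ω / D P.unif, P.unif_spec, ?_, ?_⟩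
    · by_cases h0 : e ω = 0
      · rw [h0, zero_div]
        exact P.ge_zero 0
      · right
        rw [P.ord_div h0 h5]
        have := h.le h0
        omega
    · apply e.injective
      rw [map_smul, heD, smul_eq_mul, div_mul_cancel₀ _ h5]

end

end AN
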