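import Pool.Agent.helper48.AN.SpecZ

/-!
# Project an (MP_263b92_ag), modules ZA and ZB0: the function field and the place at infinity
-/

namespace AN

open scoped Classical
open Pool.Agent.helper53.AU

noncomputable section

theorem ZA_large {K : Type} [Field K] {g : ℕ} {γ : Fin g → ℕ} {a : ℕ → LS K} (h : IsK γ a)
    (n : ℕ) (hn : ∀ i, γ i < n) : a n ∈ AA γ a ∧ a n ∈ GE K (-(n : ℤ)) ∧
      cf (a n) (-(n : ℤ)) = 1 := by
  have hg : ¬ Gp γ n := by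
    rintro ⟨i, hi⟩
    have := hn i
    omega
  refine ⟨Submodule.subset_span ⟨n, hg, rfl⟩, ?_, ?_⟩
  · intro m hm
    obtain ⟨r, hr⟩ : ∃ r : ℕ, m = -(r : ℤ) := ⟨(-m).toNat, by omega⟩
    subst hr
    have hgr : ¬ Gp γ r := by
      rintro ⟨i, hi⟩
      have := hn i
      omega
    rw [h.coef n r hg hgr, if_neg (by omega)]
  · rw [h.coef n n hg hg, if_pos rfl]

theorem ZA_exists {g : ℕ} (γ : Fin g → ℕ) : ∃ n, 0 < n ∧ ∀ i, γ i < n := by
  refine ⟨∑ i, γ i + 1, Nat.succ_pos _, fun i => ?_⟩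
  have : γ i ≤ ∑ i, γ i :=
    Finset.single_le_sum (f := fun i => γ i) (fun _ _ => Nat.zero_le _) (Finset.mem_univ i)
  omega

theorem ZA_mem {K : Type} [Field K] {g : ℕ} {γ : Fin g → ℕ} {a : ℕ → LS K} (x : LS K)
    (hx : x ∈ AA γ a) : x ∈ EF γ a :=
  IntermediateField.subset_adjoin K _ hx

theorem ZA (hZA2 : ZA2_stmt) : ZA_stmt := by
  intro K _ g γ a h
  obtain ⟨n, hn0, hn⟩ := ZA_exists γ
  obtain ⟨h1, h2, h3⟩ := ZA_large h n hn
  obtain ⟨h4, h5, _⟩ := hZA2 K g γ a h ⟨a n, ZA_mem _ h1⟩ n hn0 h1 h2 (by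
    show cf (a n) (-(n : ℤ)) ≠ 0
    rw [h3]
    exact one_ne_zero)
  exact ⟨⟨a n, ZA_mem _ h1⟩, h4, h5⟩

end

end AN
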