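import Pool.Agent.helper63.AN.ZA

/-!
# Project an (MP_263b92_ag), module ZB0: the place at infinity
-/

namespace AN

open scoped Classical
open Pool.Agent.helper53.AU

noncomputable section

/-- the order of a Laurent series -/
def ZB0_ord {K : Type} [Field K] (x : LS K) : ℤ := HahnSeries.order (x : HahnSeries ℤ K)

theorem ZB0_zero {K : Type} [Field K] : ZB0_ord (0 : LS K) = 0 :=
  HahnSeries.order_zero

theorem ZB0_mul {K : Type} [Field K] (x y : LS K) (hx : x ≠ 0) (hy : y ≠ 0) :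
    ZB0_ord (x * y) = ZB0_ord x + ZB0_ord y :=
  HahnSeries.order_mul (Γ := ℤ) (R := K) hx hy

theorem ZB0_add {K : Type} [Field K] (x y : LS K) (h : x + y ≠ 0) :
    min (ZB0_ord x) (ZB0_ord y) ≤ ZB0_ord (x + y) :=
  HahnSeries.min_order_le_order_add (Γ := ℤ) (R := K) h

theorem ZB0_const {K : Type} [Field K] (c : K) : ZB0_ord (LS.C c) = 0 :=
  HahnSeries.order_C (Γ := ℤ) (r := c)

theorem ZB0_GE {K : Type} [Field K] (x : LS K) : x ∈ GE K (ZB0_ord x) := by
  intro n hn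
  exact HahnSeries.coeff_eq_zero_of_lt_order (Γ := ℤ) (R := K) hn

theorem ZB0_ne {K : Type} [Field K] (x : LS K) (hx : x ≠ 0) : cf x (ZB0_ord x) ≠ 0 :=
  HahnSeries.coeff_order_eq_zero.not.2 hx

theorem ZB0_eq {K : Type} [Field K] (x : LS K) (n : ℤ) (h : x ∈ GE K n) (h' : cf x n ≠ 0) :
    ZB0_ord x = n := by
  have hx : x ≠ 0 := by
    rintro rfl
    exact h' (cf_zero n)
  apply le_antisymm
  · by_contra hc
    exact h' (ZB0_GE x n (not_le.1 hc))
  · by_contra hc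
    exact ZB0_ne x hx (h _ (not_le.1 hc))

/-- the place at infinity -/
def ZB0_place {K : Type} [Field K] (E : IntermediateField K (LS K))
    (hu : ∃ t : E, t ≠ 0 ∧ ZB0_ord (t : LS K) = 1) : Place K E where
  ord x := ZB0_ord (x : LS K)
  ord_zero := ZB0_zero
  ord_mul _ _ ha hb := ZB0_mul _ _ (fun h => ha (Subtype.ext h)) (fun h => hb (Subtype.ext h))
  ord_add _ _ _ _ hab := ZB0_add _ _ (fun h => hab (Subtype.ext h))
  ord_const c _ := ZB0_const c
  exists_uniformizer := hu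

theorem ZB0 : ZB0_stmt := by
  intro K _ g γ a h
  obtain ⟨n, hn0, hn⟩ := ZA_exists γ
  obtain ⟨h1, h2, h3⟩ := ZA_large h n hn
  obtain ⟨h4, h5, h6⟩ := ZA_large h (n + 1) (fun i => (hn i).trans (Nat.lt_succ_self n))
  have o1 : ZB0_ord (a n) = -(n : ℤ) := ZB0_eq _ _ h2 (by rw [h3]; exact one_ne_zero)
  have o2 : ZB0_ord (a (n + 1)) = -((n + 1 : ℕ) : ℤ) :=
    ZB0_eq _ _ h5 (by rw [h6]; exact one_ne_zero)
  have n1 : a n ≠ 0 := by
    intro h0
    rw [h0, cf_zero] at h3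
    exact zero_ne_one h3
  have n2 : a (n + 1) ≠ 0 := by
    intro h0
    rw [h0, cf_zero] at h6
    exact zero_ne_one h6
  have hu : ∃ t : EF γ a, t ≠ 0 ∧ ZB0_ord (t : LS K) = 1 := by
    obtain ⟨u, hu⟩ : ∃ u : EF γ a, (u : LS K) = a n := ⟨⟨a n, ZA_mem _ h1⟩, rfl⟩
    obtain ⟨v, hv⟩ : ∃ v : EF γ a, (v : LS K) = a (n + 1) := ⟨⟨a (n + 1), ZA_mem _ h4⟩, rfl⟩
    have hu0 : u ≠ 0 := by
      rintro rfl
      exact n1 (by rw [← hu]; rfl)
    have hv0 : v ≠ 0 := by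
      rintro rfl
      exact n2 (by rw [← hv]; rfl)
    have ht0 : u / v ≠ 0 := div_ne_zero hu0 hv0
    refine ⟨u / v, ht0, ?_⟩
    have h7 : (u / v) * v = u := div_mul_cancel₀ _ hv0
    have h8 : ((u / v : EF γ a) : LS K) * (v : LS K) = (u : LS K) :=
      congrArg (fun z : EF γ a => (z : LS K)) h7
    have h9 := ZB0_mul ((u / v : EF γ a) : LS K) (v : LS K)
      (fun h => ht0 (Subtype.ext h)) (fun h => hv0 (Subtype.ext h))
    rw [h8, hu, hv, o1, o2] at h9
    omega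
  refine ⟨ZB0_place _ hu, ?_, ?_, ?_⟩
  · intro c
    rfl
  · intro f _
    exact ZB0_GE _
  · intro f hf
    exact ZB0_ne _ (fun h => hf (Subtype.ext h))

end

end AN
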