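import Pool.Agent.helper48.AN.SpecZ

/-!
# Project an (MP_263b92_ag), module ZB2: the number of gaps is determined by `A`
-/

namespace AN

open scoped Classical

noncomputable section

/-- `c ↦ ∑ c_i s^(-γ i)` -/
def ZB2_L {K : Type} [Field K] {g : ℕ} (γ : Fin g → ℕ) : (Fin g → K) →ₗ[K] LS K where
  toFun c := ∑ i, mono (-(γ i : ℤ)) (c i)
  map_add' c d := by
    rw [← Finset.sum_add_distrib]
    exact Finset.sum_congr rfl fun i _ => mono_add _ _ _
  map_smul' r c := by
    rw [RingHom.id_apply, Finset.smul_sum]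
    exact Finset.sum_congr rfl fun i _ => (smul_mono _ _ _).symm

theorem ZB2_finrank (hKA : KA_stmt) (K : Type) [Field K] (g : ℕ) (γ : Fin g → ℕ)
    (a : ℕ → LS K) (h : IsK γ a) :
    Module.finrank K (LS K ⧸ (AA γ a ⊔ GE K 1)) = g := by
  obtain ⟨h1, h2, _⟩ := hKA K g γ a h
  have hb : Function.Bijective ((AA γ a ⊔ GE K 1).mkQ.comp (ZB2_L γ)) := by
    constructor
    · rw [← LinearMap.ker_eq_bot, LinearMap.ker_eq_bot']
      intro c hc
      rw [LinearMap.comp_apply, Submodule.mkQ_apply, Submodule.Quotient.mk_eq_zero,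
        Submodule.mem_sup] at hc
      obtain ⟨α, hα, o, ho, hs⟩ := hc
      have h3 := h2 (-α) ((AA γ a).neg_mem hα) c (-o) ((GE K 1).neg_mem ho) (by
        have h4 : ∑ i, mono (-(γ i : ℤ)) (c i) = α + o := hs.symm
        rw [h4]
        ring)
      exact h3.2.1
    · intro y
      obtain ⟨x, rfl⟩ := Submodule.mkQ_surjective _ y
      obtain ⟨α, hα, c, o, ho, hx⟩ := h1 x
      refine ⟨c, ?_⟩
      rw [LinearMap.comp_apply, Submodule.mkQ_apply, Submodule.mkQ_apply,
        Submodule.Quotient.eq, Submodule.mem_sup]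
      refine ⟨-α, (AA γ a).neg_mem hα, -o, (GE K 1).neg_mem ho, ?_⟩
      have h4 : ZB2_L γ c = ∑ i, mono (-(γ i : ℤ)) (c i) := rfl
      rw [hx, h4]
      ring
  have h5 := (LinearEquiv.ofBijective _ hb).finrank_eq
  rw [Module.finrank_fin_fun] at h5
  exact h5.symm

theorem ZB2 (hKA : KA_stmt) : ZB2_stmt := by
  intro K _ g g' γ γ' a a' h h' hA
  have h1 := ZB2_finrank hKA K g γ a h
  have h2 := ZB2_finrank hKA K g' γ' a' h'
  rw [hA] at h1
  exact h1.symm.trans h2

end

end AN
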