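import Pool.Agent.helper48.AN.SpecZ

/-!
# Project an (MP_263b92_ag), module ZC: a function field is the quotient field of `Reg P₀`
-/

namespace AN

open scoped Classical
open Pool.Agent.helper53.AU

noncomputable section

theorem ZC : ZC_stmt := by
  intro k F _ _ _ _ hF P₀ f
  by_cases hf : f = 0
  · exact ⟨1, (Reg P₀).one_mem, one_ne_zero, by rw [hf, zero_mul]; exact (Reg P₀).zero_mem⟩
  have hfin := aQV4 k F hF f hf
  obtain ⟨S, hS⟩ : ∃ S : Finset (Place k F), ∀ P, P ∈ S ↔ P.ord f ≠ 0 ∧ P ≠ P₀ := by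
    refine ⟨hfin.toFinset.filter (fun P => P ≠ P₀), fun P => ?_⟩
    rw [Finset.mem_filter, Set.Finite.mem_toFinset, Function.mem_support]
  obtain ⟨N, hN⟩ : ∃ N : ℕ, ∀ P ∈ S, -(N : ℤ) ≤ P.ord f := by
    refine ⟨∑ P ∈ S, (P.ord f).natAbs, fun P hP => ?_⟩
    have h1 : (P.ord f).natAbs ≤ ∑ P ∈ S, (P.ord f).natAbs :=
      Finset.single_le_sum (f := fun P : Place k F => (P.ord f).natAbs)
        (fun _ _ => Nat.zero_le _) hP
    omega
  have hout : ∀ P : Place k F, P ∉ S → P ≠ P₀ → P.Ge 0 f := by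
    intro P hP hP0
    right
    by_contra hc
    exact hP ((hS P).2 ⟨by omega, hP0⟩)
  rcases S.eq_empty_or_nonempty with h0 | ⟨Q, hQ⟩
  · refine ⟨1, (Reg P₀).one_mem, one_ne_zero, ?_⟩
    rw [mul_one]
    intro P hP
    exact hout P (by rw [h0]; exact Finset.notMem_empty P) hP
  · obtain ⟨b, hb, hb2⟩ := aQR4 k F hF P₀ S (N + 1) (fun P => P.unif ^ N)
      (fun h => ((hS P₀).1 h).2 rfl) (fun P _ => by
        right
        rw [P.ord_pow P.unif_spec.1, P.unif_spec.2]
        positivity)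
    have hbN : ∀ P ∈ S, P.Ge N b := by
      intro P hP
      have h1 := (hb2 P hP).mono (m := (N : ℤ)) (by push_cast; omega)
      have h2 : P.Ge (N : ℤ) (P.unif ^ N) := by
        right
        rw [P.ord_pow P.unif_spec.1, P.unif_spec.2, mul_one]
      have h3 := h1.add h2
      rwa [sub_add_cancel] at h3
    refine ⟨b, hb, ?_, ?_⟩
    · rintro rfl
      have h1 := hb2 Q hQ
      rw [zero_sub] at h1
      have h2 := h1.neg
      rw [neg_neg] at h2
      have h3 := h2.le (pow_ne_zero _ Q.unif_spec.1)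
      rw [Q.ord_pow Q.unif_spec.1, Q.unif_spec.2] at h3
      push_cast at h3
      omega
    · intro P hP
      by_cases hPS : P ∈ S
      · have h1 := (Place.ge_ord P f).mul (hbN P hPS)
        exact h1.mono (by have := hN P hPS; omega)
      · have h1 := (hout P hPS hP).mul (hb P hP)
        simpa using h1

end

end AN
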