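import Pool.Agent.helper48.AN.SpecZ

/-!
# Project an (MP_263b92_ag), module ZR: a `p`-nilpotent matrix is singular
-/

namespace AN

open scoped Classical

noncomputable section

theorem ZR_det (p : ℕ) [Fact p.Prime] (K : Type) [Field K] [CharP K p] (g : ℕ)
    (H : Matrix (Fin g) (Fin g) K) (hH : H.det ≠ 0) (n : ℕ) : (MN p H n).det ≠ 0 := by
  induction n with
  | zero =>
    show (1 : Matrix (Fin g) (Fin g) K).det ≠ 0
    rw [Matrix.det_one]
    exact one_ne_zero
  | succ n ih =>
    show (H * frM p (MN p H n)).det ≠ 0
    rw [Matrix.det_mul]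
    refine mul_ne_zero hH ?_
    have h1 : frM p (MN p H n) = (frobenius K p).mapMatrix (MN p H n) := rfl
    rw [h1, ← RingHom.map_det]
    exact (map_ne_zero _).2 ih

theorem ZR : ZR_stmt := by
  intro p _ K _ _ g H hg hM
  by_contra hc
  have hrank : H.rank = g := by
    have h1 := H.rank_le_width
    omega
  have hdet : H.det ≠ 0 := by
    have h2 : LinearMap.range H.mulVecLin = ⊤ := by
      apply Submodule.eq_top_of_finrank_eq
      rw [Module.finrank_fin_fun]
      exact hrank
    have h3 : Function.Surjective H.mulVec := by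
      have := LinearMap.range_eq_top.1 h2
      exact this
    obtain ⟨B, hB⟩ := Matrix.mulVec_surjective_iff_exists_right_inverse.1 h3
    intro h0
    have h4 := congrArg Matrix.det hB
    rw [Matrix.det_mul, h0, zero_mul, Matrix.det_one] at h4
    exact zero_ne_one h4
  have h5 := ZR_det p K g H hdet g
  rw [hM] at h5
  apply h5
  have : Nonempty (Fin g) := ⟨⟨0, hg⟩⟩
  exact Matrix.det_zero

end

end AN
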