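import Pool.Agent.helper48.AN.SpecF

/-!
# Project an (MP_263b92_ag), module FE0: echelon bases
-/

namespace AN

open scoped Classical

noncomputable section

/-- `r` is a non-gap of `V` -/
def FE0_N {k : Type} [Field k] (V : Submodule k (LS k)) (r : ℕ) : Prop :=
  ∃ v ∈ V, v ∈ GE k (-(r : ℤ)) ∧ cf v (-(r : ℤ)) = 1

theorem FE0_N_of {k : Type} [Field k] (V : Submodule k (LS k)) (r : ℕ) (v : LS k) (hv : v ∈ V)
    (hg : v ∈ GE k (-(r : ℤ))) (h : cf v (-(r : ℤ)) ≠ 0) : FE0_N V r := by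
  refine ⟨(cf v (-(r : ℤ)))⁻¹ • v, V.smul_mem _ hv, (GE k _).smul_mem _ hg, ?_⟩
  rw [cf_smul, inv_mul_cancel₀ h]

theorem FE0_red_aux {k : Type} [Field k] (V : Submodule k (LS k)) (r : ℕ) (h : FE0_N V r)
    (j : ℕ) : ∃ v ∈ V, v ∈ GE k (-(r : ℤ)) ∧ cf v (-(r : ℤ)) = 1 ∧
      ∀ r' < r, r ≤ r' + j → FE0_N V r' → cf v (-(r' : ℤ)) = 0 := by
  induction j with
  | zero =>
    obtain ⟨v, h1, h2, h3⟩ := h
    exact ⟨v, h1, h2, h3, fun r' h4 h5 _ => absurd h5 (by omega)⟩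
  | succ j ih =>
    obtain ⟨v, h1, h2, h3, h4⟩ := ih
    by_cases hj : j + 1 ≤ r ∧ FE0_N V (r - (j + 1))
    · obtain ⟨hj1, b, hb1, hb2, hb3⟩ := hj
      obtain ⟨q, hq⟩ : ∃ q, q = r - (j + 1) := ⟨_, rfl⟩
      rw [← hq] at hb2 hb3
      have hqr : q < r := by omega
      refine ⟨v - cf v (-(q : ℤ)) • b, V.sub_mem h1 (V.smul_mem _ hb1), ?_, ?_, ?_⟩
      · refine (GE k _).sub_mem h2 ((GE k _).smul_mem _ (GE_mono ?_ hb2))
        omega
      · rw [cf_sub, cf_smul, h3, hb2 (-(r : ℤ)) (by omega), mul_zero, sub_zero]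
      · intro r' hr' hr'' hN
        rw [cf_sub, cf_smul]
        by_cases hc : r' = q
        · rw [hc, hb3, mul_one, sub_self]
        · rw [h4 r' hr' (by omega) hN, hb2 (-(r' : ℤ)) (by omega), mul_zero, sub_zero]
    · refine ⟨v, h1, h2, h3, fun r' h5 h6 h7 => ?_⟩
      by_cases hc : r ≤ r' + j
      · exact h4 r' h5 hc h7
      · exfalso
        apply hj
        have : r' = r - (j + 1) := by omega
        exact ⟨by omega, this ▸ h7⟩

theorem FE0_red {k : Type} [Field k] (V : Submodule k (LS k)) (r : ℕ) (h : FE0_N V r) :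
    ∃ v ∈ V, v ∈ GE k (-(r : ℤ)) ∧ cf v (-(r : ℤ)) = 1 ∧
      ∀ r' < r, FE0_N V r' → cf v (-(r' : ℤ)) = 0 := by
  obtain ⟨v, h1, h2, h3, h4⟩ := FE0_red_aux V r h r
  exact ⟨v, h1, h2, h3, fun r' h5 h6 => h4 r' h5 (by omega) h6⟩

/-- the elements of `V` of bounded pole order are spanned by the echelon basis -/
theorem FE0_span_aux {k : Type} [Field k] (V : Submodule k (LS k)) (e : ℕ)
    (hV : V ⊓ GE k (1 - (e : ℤ)) = ⊥) (a : ℕ → LS k)
    (ha : ∀ r, FE0_N V r → a r ∈ V ∧ a r ∈ GE k (-(r : ℤ)) ∧ cf (a r) (-(r : ℤ)) = 1)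
    (n : ℕ) : ∀ v ∈ V, v ∈ GE k (1 - (e : ℤ) - n) →
      v ∈ Submodule.span k (a '' {r | FE0_N V r ∧ r < e + n}) := by
  induction n with
  | zero =>
    intro v hv hg
    have h0 : v ∈ V ⊓ GE k (1 - (e : ℤ)) := ⟨hv, by simpa using hg⟩
    rw [hV, Submodule.mem_bot] at h0
    rw [h0]
    exact Submodule.zero_mem _
  | succ n ih =>
    intro v hv hg
    have hmono : Submodule.span k (a '' {r | FE0_N V r ∧ r < e + n}) ≤
        Submodule.span k (a '' {r | FE0_N V r ∧ r < e + (n + 1)}) := by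
      apply Submodule.span_mono
      apply Set.image_mono
      rintro r ⟨h1, h2⟩
      exact ⟨h1, by omega⟩
    have hg1 : v ∈ GE k (-((e + n : ℕ) : ℤ)) := by
      refine GE_mono ?_ hg
      push_cast
      omega
    by_cases hc : cf v (-((e + n : ℕ) : ℤ)) = 0
    · apply hmono
      apply ih v hv
      intro m hm
      rcases lt_or_ge m (-((e + n : ℕ) : ℤ)) with h1 | h1
      · exact hg1 m h1
      · have : m = -((e + n : ℕ) : ℤ) := by
          push_cast at h1 ⊢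
          omega
        rw [this]
        exact hc
    · have hN : FE0_N V (e + n) := FE0_N_of V (e + n) v hv hg1 hc
      obtain ⟨ha1, ha2, ha3⟩ := ha _ hN
      have h1 : v - cf v (-((e + n : ℕ) : ℤ)) • a (e + n) ∈
          Submodule.span k (a '' {r | FE0_N V r ∧ r < e + n}) := by
        apply ih _ (V.sub_mem hv (V.smul_mem _ ha1))
        intro m hm
        rw [cf_sub, cf_smul]
        rcases lt_or_ge m (-((e + n : ℕ) : ℤ)) with h1 | h1
        · rw [hg1 m h1, ha2 m h1, mul_zero, sub_zero]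
        · have : m = -((e + n : ℕ) : ℤ) := by
            push_cast at h1 ⊢
            omega
          rw [this, ha3, mul_one, sub_self]
      have h2 : a (e + n) ∈ Submodule.span k (a '' {r | FE0_N V r ∧ r < e + (n + 1)}) := by
        apply Submodule.subset_span
        exact ⟨e + n, ⟨hN, by omega⟩, rfl⟩
      have h3 := Submodule.add_mem _ (hmono h1)
        (Submodule.smul_mem _ (cf v (-((e + n : ℕ) : ℤ))) h2)
      rwa [sub_add_cancel] at h3

theorem FE0_N_ge {k : Type} [Field k] (V : Submodule k (LS k)) (e : ℕ)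
    (hV : V ⊓ GE k (1 - (e : ℤ)) = ⊥) (r : ℕ) (h : FE0_N V r) : e ≤ r := by
  by_contra hc
  obtain ⟨v, h1, h2, h3⟩ := h
  have h0 : v ∈ V ⊓ GE k (1 - (e : ℤ)) := ⟨h1, GE_mono (by omega) h2⟩
  rw [hV, Submodule.mem_bot] at h0
  rw [h0, cf_zero] at h3
  exact zero_ne_one h3

theorem FE0_finrank {k : Type} [Field k] (V : Submodule k (LS k)) (e : ℕ)
    (hV : V ⊓ GE k (1 - (e : ℤ)) = ⊥) (a : ℕ → LS k)
    (ha : ∀ r, FE0_N V r → a r ∈ V ∧ a r ∈ GE k (-(r : ℤ)) ∧ cf (a r) (-(r : ℤ)) = 1 ∧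
      ∀ r' < r, FE0_N V r' → cf (a r) (-(r' : ℤ)) = 0)
    (m : ℕ) (hm : e ≤ m + 1) :
    Module.finrank k (V ⊓ GE k (-(m : ℤ)) : Submodule k (LS k)) =
      ((Finset.range (m + 1)).filter (fun r => FE0_N V r)).card := by
  obtain ⟨T, hT⟩ : ∃ T, T = (Finset.range (m + 1)).filter (fun r => FE0_N V r) := ⟨_, rfl⟩
  have hmT : ∀ r, r ∈ T ↔ r < m + 1 ∧ FE0_N V r := by
    intro r
    rw [hT, Finset.mem_filter, Finset.mem_range]
  have h1 : (V ⊓ GE k (-(m : ℤ)) : Submodule k (LS k)) =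
      Submodule.span k (Set.range (fun r : T => a r)) := by
    apply le_antisymm
    · rintro v ⟨hv1, hv2⟩
      have h2 := FE0_span_aux V e hV a (fun r hr => ⟨(ha r hr).1, (ha r hr).2.1, (ha r hr).2.2.1⟩)
        (m + 1 - e) v hv1 (by
          refine GE_mono ?_ hv2
          omega)
      refine Submodule.span_mono ?_ h2
      rintro _ ⟨r, ⟨hr1, hr2⟩, rfl⟩
      exact ⟨⟨r, (hmT r).2 ⟨by omega, hr1⟩⟩, rfl⟩
    · rw [Submodule.span_le]
      rintro _ ⟨⟨r, hr⟩, rfl⟩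
      obtain ⟨hr1, hr2⟩ := (hmT r).1 hr
      exact ⟨(ha r hr2).1, GE_mono (by omega) (ha r hr2).2.1⟩
  have h2 : LinearIndependent k (fun r : T => a r) := by
    rw [Fintype.linearIndependent_iff]
    intro c hc i
    have h3 := congrArg (fun f => cf f (-((i : ℕ) : ℤ))) hc
    simp only [cf_sum, cf_smul, cf_zero] at h3
    rw [Finset.sum_eq_single i] at h3
    · rw [(ha _ ((hmT _).1 i.2).2).2.2.1, mul_one] at h3
      exact h3
    · intro j _ hji
      have hj := (hmT _).1 j.2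
      have hi := (hmT _).1 i.2
      have hne : (j : ℕ) ≠ i := fun h => hji (Subtype.ext h)
      rcases lt_or_gt_of_ne hne with h4 | h4
      · rw [(ha _ hj.2).2.1 (-((i : ℕ) : ℤ)) (by omega), mul_zero]
      · rw [(ha _ hj.2).2.2.2 _ h4 hi.2, mul_zero]
    · intro h
      exact absurd (Finset.mem_univ _) h
  rw [h1, finrank_span_eq_card h2, Fintype.card_coe, hT]

theorem FE0 : FE0_stmt := by
  intro k _ V e G hV ⟨C, hC⟩
  have hex : ∀ r, FE0_N V r → ∃ v, v ∈ V ∧ v ∈ GE k (-(r : ℤ)) ∧ cf v (-(r : ℤ)) = 1 ∧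
      ∀ r' < r, FE0_N V r' → cf v (-(r' : ℤ)) = 0 := by
    intro r hr
    obtain ⟨v, h1, h2, h3, h4⟩ := FE0_red V r hr
    exact ⟨v, h1, h2, h3, h4⟩
  choose! a ha using hex
  have hcount : ∀ m, C ≤ m →
      ((Finset.range (m + 1)).filter (fun r => FE0_N V r)).card + G + e = m + 1 := by
    intro m hm
    have h1 := hC m hm
    rw [FE0_finrank V e hV a ha m (by omega)] at h1
    exact h1
  have hlarge : ∀ r, C < r → FE0_N V r := by
    intro r hr
    by_contra hn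
    have h1 := hcount r hr.le
    obtain ⟨q, rfl⟩ : ∃ q, r = q + 1 := ⟨r - 1, by omega⟩
    have h2 := hcount q (by omega)
    rw [Finset.range_add_one, Finset.filter_insert, if_neg hn] at h1
    omega
  obtain ⟨Γ, hΓ⟩ : ∃ Γ, Γ = (Finset.Ico e (C + 1)).filter (fun r => ¬ FE0_N V r) := ⟨_, rfl⟩
  have hCe : e ≤ C + 1 := by
    have := hcount C le_rfl
    omega
  have hmΓ : ∀ r, r ∈ Γ ↔ (e ≤ r ∧ r < C + 1) ∧ ¬ FE0_N V r := by
    intro r
    rw [hΓ, Finset.mem_filter, Finset.mem_Ico]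
  have hcard : Γ.card = G := by
    have h1 := hcount C le_rfl
    have h2 : ((Finset.range (C + 1)).filter (fun r => FE0_N V r)) =
        ((Finset.Ico e (C + 1)).filter (fun r => FE0_N V r)) := by
      ext r
      rw [Finset.mem_filter, Finset.mem_filter, Finset.mem_range, Finset.mem_Ico]
      constructor
      · rintro ⟨h3, h4⟩
        exact ⟨⟨FE0_N_ge V e hV r h4, h3⟩, h4⟩
      · rintro ⟨⟨_, h3⟩, h4⟩
        exact ⟨h3, h4⟩
    have h3 := Finset.card_filter_add_card_filter_not (s := Finset.Ico e (C + 1))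
      (fun r => FE0_N V r)
    rw [Nat.card_Ico, ← hΓ, ← h2] at h3
    omega
  let E := Γ.equivFinOfCardEq hcard
  have hGp : ∀ r, Gp (fun i : Fin G => ((E.symm i : Γ) : ℕ)) r ↔ r ∈ Γ := by
    intro r
    constructor
    · rintro ⟨i, rfl⟩
      exact (E.symm i).2
    · intro hr
      exact ⟨E ⟨r, hr⟩, by simp⟩
  have hN : ∀ r, e ≤ r → ¬ Gp (fun i : Fin G => ((E.symm i : Γ) : ℕ)) r → FE0_N V r := by
    intro r hr h
    rw [hGp] at h
    by_contra hn
    apply h
    rw [hmΓ]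
    refine ⟨⟨hr, ?_⟩, hn⟩
    by_contra hc
    exact hn (hlarge r (by omega))
  refine ⟨fun i => ((E.symm i : Γ) : ℕ), a, ?_, ?_, ?_, ?_, ?_, ?_⟩
  · intro i j hij
    exact E.symm.injective (Subtype.ext hij)
  · intro i
    exact ((hmΓ _).1 (E.symm i).2).1.1
  · intro r hr h
    exact (ha r (hN r hr h)).1
  · intro r r' hr hr' h h'
    have hr1 := ha r (hN r hr h)
    have hr2 := hN r' hr' h'
    rcases lt_trichotomy r r' with h1 | h1 | h1
    · rw [if_neg (by omega)]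
      exact hr1.2.1 _ (by omega)
    · subst h1
      rw [if_pos rfl]
      exact hr1.2.2.1
    · rw [if_neg (by omega)]
      exact hr1.2.2.2 r' h1 hr2
  · intro r hr v hv hg
    by_contra hc
    rw [hGp, hmΓ] at hr
    exact hr.2 (FE0_N_of V r v hv hg hc)
  · apply le_antisymm
    · intro v hv
      obtain ⟨M, hM⟩ := exists_lb_nat v
      have h2 := FE0_span_aux V e hV a
        (fun r hr => ⟨(ha r hr).1, (ha r hr).2.1, (ha r hr).2.2.1⟩) (M + 1) v hv (by
          intro n hn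
          exact hM n (by push_cast at hn; omega))
      refine Submodule.span_mono ?_ h2
      rintro _ ⟨r, ⟨hr1, hr2⟩, rfl⟩
      refine ⟨r, FE0_N_ge V e hV r hr1, ?_, rfl⟩
      rw [hGp, hmΓ]
      intro h
      exact h.2 hr1
    · rw [Submodule.span_le]
      rintro _ ⟨r, hr, h, rfl⟩
      exact (ha r (hN r hr h)).1

end

end AN
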